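/-
Project DOM (MP_18808e_co), packet OCTA.
-/
import Pool.Agent.Helper68.Dom.Goals

namespace NApexGraphs.Dom.Helper46

open SimpleGraph NApexGraphs NApexGraphs.Dom

/-- The partner. -/
def q : Fin 6 → Fin 6 := ![1, 0, 3, 2, 5, 4]

theorem q_free : ∀ x y : Fin 6, ∃ j, j ≠ x ∧ j ≠ y ∧ q j ≠ x ∧ q j ≠ y ∧ q j ≠ j := by
  decide

theorem q_side : ∀ g : Fin 6 → Bool, (∀ j, g j = g (q j)) →
    (Finset.univ.filter fun j => g j = true).card ≠ 3 := by
  decide

theorem side_card : (Finset.univ.filter fun k : Fin 3 ⊕ Fin 3 => k.isLeft = true).card = 3 := by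
  decide

theorem gOCTA : Goals.OCTA := by
  intro V G a a' b b' c c' hnd hab hbb hcc
  obtain ⟨e, hedef⟩ : ∃ e : Fin 6 → V, e = ![a, a', b, b', c, c'] := ⟨_, rfl⟩
  have he : Function.Injective e := by
    rw [← List.nodup_ofFn, hedef]
    simpa using hnd
  have hZ : ∀ x ∈ ({a, a', b, b', c, c'} : Set V), ∃ j, x = e j := by
    rw [hedef]
    rintro x (rfl | rfl | rfl | rfl | rfl | rfl)
    · exact ⟨0, rfl⟩
    · exact ⟨1, rfl⟩
    · exact ⟨2, rfl⟩
    · exact ⟨3, rfl⟩
    · exact ⟨4, rfl⟩
    · exact ⟨5, rfl⟩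
  have hn : ∀ j, ¬ G.Adj (e j) (e (q j)) := by
    intro j
    rw [hedef]
    fin_cases j
    · exact hab
    · exact fun h => hab h.symm
    · exact hbb
    · exact fun h => hbb h.symm
    · exact hcc
    · exact fun h => hcc h.symm
  constructor
  · rintro ⟨B, hB, hs⟩
    rw [isModel_iff] at hB
    obtain ⟨hc, hd, ha⟩ := hB
    have h1 : ∀ k, ∃ j, e j ∈ B k := by
      intro k
      obtain ⟨x, hx⟩ := (hc k).1
      obtain ⟨j, rfl⟩ := hZ x (hs k hx)
      exact ⟨j, hx⟩
    choose i hi using h1
    have hdis : ∀ k l x, x ∈ B k → x ∈ B l → k = l := by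
      intro k l x hk hl
      by_contra hne
      exact Set.disjoint_left.1 (hd k l hne) hk hl
    have hinj : Function.Injective i := by
      intro k l hkl
      exact hdis k l (e (i k)) (hi k) (by rw [hkl]; exact hi l)
    obtain ⟨j0, hj0⟩ : ∃ j0, j0 ∉ Set.range i := by
      by_contra hcon
      push Not at hcon
      have hsurj : Function.Surjective i := fun j => hcon j
      have := Fintype.card_le_of_surjective i hsurj
      simp at this
    have hother : ∀ j, j ≠ j0 → ∃ k, i k = j := by
      intro j hj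
      by_contra hcon
      push Not at hcon
      have hsub : (Finset.univ.image i) ⊆ (Finset.univ.erase j).erase j0 := by
        intro l hl
        obtain ⟨k, -, rfl⟩ := Finset.mem_image.1 hl
        simp only [Finset.mem_erase, Finset.mem_univ, and_true]
        exact ⟨fun h => hj0 ⟨k, h⟩, hcon k⟩
      have h2 := Finset.card_le_card hsub
      rw [Finset.card_image_of_injective _ hinj, Finset.card_erase_of_mem (by simp [hj.symm]),
        Finset.card_erase_of_mem (by simp)] at h2
      simp at h2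
    obtain ⟨y, hy⟩ : ∃ y, ∀ k, e j0 ∈ B k → i k = y := by
      by_cases hex : ∃ k, e j0 ∈ B k
      · obtain ⟨k1, hk1⟩ := hex
        exact ⟨i k1, fun k hk => by rw [hdis k k1 _ hk hk1]⟩
      · exact ⟨j0, fun k hk => absurd ⟨k, hk⟩ hex⟩
    obtain ⟨j, hjx, hjy, hqx, hqy, hqj⟩ := q_free j0 y
    have hsing : ∀ l, l ≠ j0 → l ≠ y → ∃ k, i k = l ∧ ∀ x ∈ B k, x = e l := by
      intro l hl0 hly
      obtain ⟨k, hk⟩ := hother l hl0
      refine ⟨k, hk, fun x hx => ?_⟩
      obtain ⟨m, rfl⟩ := hZ x (hs k hx)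
      by_cases hm : m = j0
      · exact absurd (hk.symm.trans (hy k (by rw [← hm]; exact hx))) hly
      · obtain ⟨k', hk'⟩ := hother m hm
        have : k = k' := hdis k k' (e m) hx (by rw [← hk']; exact hi k')
        rw [← hk', ← this, hk]
    obtain ⟨k, hk, hk'⟩ := hsing j hjx hjy
    obtain ⟨l, hl, hl'⟩ := hsing (q j) hqx hqy
    have hkl : k ≠ l := by
      intro h
      apply hqj
      rw [← hl, ← hk, h]
    obtain ⟨x, hx, z, hz, hxz⟩ := ha k l (by simpa [K5] using hkl)
    rw [hk' x hx, hl' z hz] at hxz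
    exact hn j hxz
  · rintro ⟨B, hB, hs⟩
    rw [isModel_iff] at hB
    obtain ⟨hc, hd, ha⟩ := hB
    have h1 : ∀ k, ∃ j, e j ∈ B k := by
      intro k
      obtain ⟨x, hx⟩ := (hc k).1
      obtain ⟨j, rfl⟩ := hZ x (hs k hx)
      exact ⟨j, hx⟩
    choose i hi using h1
    have hdis : ∀ k l x, x ∈ B k → x ∈ B l → k = l := by
      intro k l x hk hl
      by_contra hne
      exact Set.disjoint_left.1 (hd k l hne) hk hl
    have hinj : Function.Injective i := by
      intro k l hkl
      exact hdis k l (e (i k)) (hi k) (by rw [hkl]; exact hi l)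
    have hbij : Function.Bijective i :=
      (Fintype.bijective_iff_injective_and_card i).2 ⟨hinj, by simp⟩
    let f : Fin 6 ≃ Fin 3 ⊕ Fin 3 := (Equiv.ofBijective i hbij).symm
    have hf : ∀ j, i (f j) = j := fun j => (Equiv.ofBijective i hbij).apply_symm_apply j
    have hsing : ∀ j, ∀ x ∈ B (f j), x = e j := by
      intro j x hx
      obtain ⟨m, rfl⟩ := hZ x (hs _ hx)
      have : f j = f m := hdis _ _ (e m) hx (by have := hi (f m); rwa [hf] at this)
      rw [f.injective this]
    have hnadj : ∀ j, ¬ K33.Adj (f j) (f (q j)) := by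
      intro j h
      obtain ⟨x, hx, z, hz, hxz⟩ := ha _ _ h
      rw [hsing _ x hx, hsing _ z hz] at hxz
      exact hn j hxz
    have hside : ∀ j, (f j).isLeft = (f (q j)).isLeft := by
      intro j
      have := hnadj j
      rcases h1 : f j with x | x <;> rcases h2 : f (q j) with z | z
      · rfl
      · exfalso; rw [h1, h2] at this; exact this (by simp [K33])
      · exfalso; rw [h1, h2] at this; exact this (by simp [K33])
      · rfl
    apply q_side (fun j => (f j).isLeft) hside
    refine Eq.trans ?_ side_card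
    exact Finset.card_equiv f (by simp)

end NApexGraphs.Dom.Helper46
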